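import Pool.Agent.Helper58.AM.Sheet

/-! Row CUT: maximal cut. -/

set_option autoImplicit false

open Finset

namespace Pool.Agent.Helper58.AM

theorem cut9_flip {V : Type} [Fintype V] [DecidableEq V] (a : V → V → ℤ) (x : V → ℤ) (v : V)
    (hs : ∀ u w, a u w = a w u) (hv : a v v = 0) :
    ∑ u, ∑ w, a u w * (x u - (if u = v then 2 * x v else 0)) *
      (x w - (if w = v then 2 * x v else 0)) =
    ∑ u, ∑ w, a u w * x u * x w - 4 * ∑ w, a v w * x v * x w := by
  have h1 : ∀ u w, a u w * (x u - (if u = v then 2 * x v else 0)) *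
      (x w - (if w = v then 2 * x v else 0)) =
      a u w * x u * x w - (if u = v then 2 * (a v w * x v * x w) else 0) -
      (if w = v then 2 * (a v u * x v * x u) else 0) := by
    intro u w
    by_cases hu : u = v
    · by_cases hw : w = v
      · subst hu
        subst hw
        rw [hv]
        simp
      · subst hu
        rw [if_pos rfl, if_neg hw, if_pos rfl, if_neg hw]
        ring
    · by_cases hw : w = v
      · subst hw
        rw [if_neg hu, if_pos rfl, if_neg hu, if_pos rfl, hs u w]
        ring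
      · rw [if_neg hu, if_neg hw, if_neg hu, if_neg hw]
        ring
  simp_rw [h1, Finset.sum_sub_distrib]
  have h2 : ∑ u, ∑ w, (if u = v then 2 * (a v w * x v * x w) else 0) =
      2 * ∑ w, a v w * x v * x w := by
    rw [Finset.sum_eq_single v]
    · rw [Finset.mul_sum]
      simp
    · intro u _ hu
      simp [hu]
    · intro h
      exact absurd (Finset.mem_univ v) h
  have h3 : ∑ u, ∑ w, (if w = v then 2 * (a v u * x v * x u) else 0) =
      2 * ∑ w, a v w * x v * x w := by
    rw [Finset.mul_sum]
    refine Finset.sum_congr rfl fun u _ => ?_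
    simp
  rw [h2, h3]
  ring

theorem st_CUT : ST_CUT := by
  classical
  intro V _ _ G _
  let s : Finset V → V → ℤ := fun X u => if u ∈ X then 1 else -1
  let a : V → V → ℤ := fun u w => if G.Adj u w then 1 else 0
  obtain ⟨X, -, hX⟩ := Finset.exists_min_image (Finset.univ : Finset (Finset V))
    (fun X => ∑ u, ∑ w, a u w * s X u * s X w) ⟨∅, Finset.mem_univ _⟩
  refine ⟨X, fun v => ?_⟩
  -- the flipped set
  obtain ⟨X', hX'⟩ : ∃ X' : Finset V, ∀ u, s X' u = s X u - (if u = v then 2 * s X v else 0) := by
    by_cases hv : v ∈ X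
    · refine ⟨X.erase v, fun u => ?_⟩
      by_cases hu : u = v
      · subst hu
        simp [s, hv]
      · simp [s, hu]
    · refine ⟨insert v X, fun u => ?_⟩
      by_cases hu : u = v
      · subst hu
        simp [s, hv]
      · simp [s, hu]
  have h1 := hX X' (Finset.mem_univ _)
  have h2 := cut9_flip a (s X) v (fun u w => by simp [a, G.adj_comm]) (by simp [a])
  simp_rw [hX'] at h1
  rw [h2] at h1
  have h3 : ∑ w, a v w * s X v * s X w ≤ 0 := by linarith
  have h4 : ∑ w, a v w * s X v * s X w = (G.degree v : ℤ) -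
      2 * (((G.neighborFinset v).filter (fun u => ¬ (u ∈ X ↔ v ∈ X))).card : ℤ) := by
    have h5 : ∀ w, a v w * s X v * s X w = if w ∈ G.neighborFinset v then
        (1 - 2 * (if ¬ (w ∈ X ↔ v ∈ X) then (1 : ℤ) else 0)) else 0 := by
      intro w
      by_cases hw : G.Adj v w
      · by_cases h6 : w ∈ X <;> by_cases h7 : v ∈ X <;> simp [a, s, hw, h6, h7]
      · simp [a, hw]
    simp_rw [h5]
    rw [Finset.sum_ite_mem, Finset.univ_inter, Finset.sum_sub_distrib, ← Finset.mul_sum,
      Finset.card_filter]
    simp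
  rw [h4] at h3
  exact_mod_cast (by linarith : (G.degree v : ℤ) ≤
    2 * (((G.neighborFinset v).filter (fun u => ¬ (u ∈ X ↔ v ∈ X))).card : ℤ))

end Pool.Agent.Helper58.AM
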